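import Pool.Agent.X188.Linking

/-!
# MP_0a1256_an: an idempotent satisfying the ternary identity which is not a conditional expectation

Take the commutative C*-algebra `ℂ²` as a Hilbert module over itself, `F = ℂ (1, 1)` and
`𝔼 (a, b) = (2 a - b) (1, 1)`.  Then `𝔼` satisfies the ternary identity but has norm `3`.
-/

open Pool.Agent.X188.HM
open scoped ComplexOrder

namespace Pool.Agent.Results.MP_0a1256_an.NotContractive

/-- The ternary identity `𝔼(𝔼(x) ⟨y, 𝔼(z)⟩) = 𝔼(x) ⟨𝔼(y), 𝔼(z)⟩`. -/
def TernaryIdentity (A : Type*) {E : Type*} [NonUnitalCStarAlgebra A] [PartialOrder A]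
    [StarOrderedRing A] [NormedAddCommGroup E] [NormedSpace ℂ E] [SMul A E] [CStarModule A E]
    (P : E →ₗ[ℂ] E) : Prop :=
  ∀ x y z : E, P (inner A y (P z) • P x) = inner A (P y) (P z) • P x

/-- the C*-algebra `ℂ²` -/
abbrev CC := Bool → ℂ

/-- the hermitian functional `2 a - b` -/
def phi : CC →ₗ[ℂ] ℂ where
  toFun v := 2 * v false - v true
  map_add' v w := by simp only [Pi.add_apply]; ring
  map_smul' c v := by simp only [Pi.smul_apply, smul_eq_mul, RingHom.id_apply]; ring

/-- the idempotent -/
def PP : CC →ₗ[ℂ] CC := phi.smulRight (1 : CC)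

/-- the subspace `ℂ (1, 1)` -/
def FF : Submodule ℂ CC := Submodule.span ℂ {(1 : CC)}

lemma PP_apply (v : CC) : PP v = phi v • (1 : CC) := rfl

lemma in_apply (x y : CC) : inner CC x y = y * star x := rfl

lemma phi_one : phi 1 = 1 := by
  change (2 : ℂ) * 1 - 1 = 1
  norm_num

lemma phi_star (v : CC) : phi (star v) = star (phi v) := by
  change 2 * star (v false) - star (v true) = star (2 * v false - v true)
  simp

lemma phi_smul (c : ℂ) (v : CC) : phi (c • v) = c * phi v := by
  rw [map_smul, smul_eq_mul]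

lemma ternary_PP : TernaryIdentity CC PP := by
  intro x y z
  have e1 : inner CC y (PP z) • PP x = (phi z * phi x) • star y := by
    rw [in_apply, PP_apply, PP_apply]
    ext i
    simp only [smul_eq_mul, Pi.mul_apply, Pi.smul_apply, Pi.one_apply, Pi.star_apply]
    ring
  have e2 : inner CC (PP y) (PP z) • PP x = (phi z * phi x * star (phi y)) • (1 : CC) := by
    rw [in_apply, PP_apply, PP_apply, PP_apply]
    ext i
    simp only [smul_eq_mul, Pi.mul_apply, Pi.smul_apply, Pi.one_apply, Pi.star_apply, star_mul',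
      star_one]
    ring
  rw [e1, e2, PP_apply, phi_smul, phi_star]

lemma mem_FF (v : CC) : PP v ∈ FF := Submodule.smul_mem _ _ (Submodule.mem_span_singleton_self _)

lemma PP_id {v : CC} (hv : v ∈ FF) : PP v = v := by
  obtain ⟨c, rfl⟩ := Submodule.mem_span_singleton.mp hv
  rw [PP_apply, phi_smul, phi_one, mul_one]

lemma closedTernary_FF : IsClosedTernary CC FF where
  closed := Submodule.closed_of_finiteDimensional FF
  tern := by
    rintro x hx y hy z hz
    obtain ⟨a, rfl⟩ := Submodule.mem_span_singleton.mp hx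
    obtain ⟨b, rfl⟩ := Submodule.mem_span_singleton.mp hy
    obtain ⟨c, rfl⟩ := Submodule.mem_span_singleton.mp hz
    refine Submodule.mem_span_singleton.mpr ⟨c * star b * a, ?_⟩
    rw [in_apply]
    ext i
    simp only [smul_eq_mul, Pi.mul_apply, Pi.smul_apply, Pi.one_apply, Pi.star_apply, star_mul',
      star_one]
    ring

lemma full_CC : innerSpan CC (⊤ : Submodule ℂ CC) = ⊤ := by
  rw [eq_top_iff]
  intro a _
  have h : a = inner CC (1 : CC) a := by rw [in_apply, star_one, mul_one]
  rw [h]
  exact inner_mem Submodule.mem_top Submodule.mem_top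

lemma not_extends : ¬ ExtendsToBlockwiseCondExp CC FF PP := by
  intro h
  have h1 := contractive_of_extends full_CC h (fun i => if i then (-1 : ℂ) else 1)
  have h2 : PP (fun i => if i then (-1 : ℂ) else 1) = fun _ => (3 : ℂ) := by
    ext i
    change (2 * (if false = true then (-1 : ℂ) else 1) - (if true = true then (-1 : ℂ) else 1)) * 1
      = 3
    norm_num
  have h3 : ‖(fun i => if i then (-1 : ℂ) else 1 : CC)‖ ≤ 1 := by
    refine (pi_norm_le_iff_of_nonneg zero_le_one).mpr fun i => ?_
    cases i <;> simp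
  have h4 : (3 : ℝ) ≤ ‖(fun _ => (3 : ℂ) : CC)‖ := by
    have := norm_le_pi_norm (fun _ => (3 : ℂ) : CC) false
    simpa using this
  rw [h2] at h1
  linarith

/-- **Theorem.** There are a C*-algebra `A`, a full Hilbert `A`-module `E`, a closed ternary
subspace `F` of `E` and a linear idempotent `𝔼` of `E` onto `F` satisfying the ternary identity,
which is not the `(2,1)`-corner of any blockwise conditional expectation of the linking algebra of
`E` onto the linking algebra of `F`; moreover `𝔼` is not contractive. -/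
theorem result : ∃ (A : Type) (_ : NonUnitalCStarAlgebra A) (_ : PartialOrder A)
    (_ : StarOrderedRing A) (E : Type) (_ : NormedAddCommGroup E) (_ : NormedSpace ℂ E)
    (_ : SMul A E) (_ : CStarModule A E) (_ : CompleteSpace E) (F : Submodule ℂ E)
    (P : E →ₗ[ℂ] E),
    innerSpan A (⊤ : Submodule ℂ E) = ⊤ ∧ IsClosedTernary A F ∧
    (∀ x, P x ∈ F) ∧ (∀ x ∈ F, P x = x) ∧ TernaryIdentity A P ∧
    ¬ ExtendsToBlockwiseCondExp A F P ∧ ∃ x : E, ‖x‖ < ‖P x‖ := by
  refine ⟨CC, inferInstance, inferInstance, inferInstance, CC, inferInstance, inferInstance,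
    inferInstance, inferInstance, inferInstance, FF, PP, full_CC, closedTernary_FF, mem_FF,
    fun x hx => PP_id hx, ternary_PP, not_extends, (fun i => if i then (-1 : ℂ) else 1), ?_⟩
  have h2 : PP (fun i => if i then (-1 : ℂ) else 1) = fun _ => (3 : ℂ) := by
    ext i
    change (2 * (if false = true then (-1 : ℂ) else 1) - (if true = true then (-1 : ℂ) else 1)) * 1
      = 3
    norm_num
  have h3 : ‖(fun i => if i then (-1 : ℂ) else 1 : CC)‖ ≤ 1 := by
    refine (pi_norm_le_iff_of_nonneg zero_le_one).mpr fun i => ?_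
    cases i <;> simp
  have h4 : (3 : ℝ) ≤ ‖(fun _ => (3 : ℂ) : CC)‖ := by
    have := norm_le_pi_norm (fun _ => (3 : ℂ) : CC) false
    simpa using this
  rw [h2]
  linarith

end Pool.Agent.Results.MP_0a1256_an.NotContractive
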